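import Pool.Agent.X240.PS.Pres

/-!
# A one-dimensional low₄-presented Polish space without a computable presentation (Q1)

The space is the disjoint union over `n` of a star with `3 ^ (2 n + 1) + 1` legs (if `n ∈ D`) or
`3 ^ (2 n + 2) + 1` legs (if `n ∉ D`), where `D` is a set with `D⁗ ≡ ∅⁗` which is not
computably enumerable in `∅‴` (a sufficiently generic set computable in `∅⁗`).
-/

set_option autoImplicit false

namespace Pool.Agent.Results.MP_f0c992_lc.FiniteDimLow4

open Pool.Agent.X240.PS

/-- There is a topological space of covering dimension at most one which has a `D`-computable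
presentation for some set `D` of low₄ degree and which is not homeomorphic to any computably
presented space. -/
theorem result : ∃ (X : Type) (_ : TopologicalSpace X), CovDimLE X 1 ∧
    (∃ D : Set ℕ, Low4 D ∧ Presented D X) ∧
    ¬ ∃ (Y : Type) (_ : TopologicalSpace Y), Presented ∅ Y ∧ Nonempty (X ≃ₜ Y) :=
  main

end Pool.Agent.Results.MP_f0c992_lc.FiniteDimLow4
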